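import Mathlib

/-!
The Frobenius automorphisms of the subfields of a cyclotomic field.
-/

set_option autoImplicit false

namespace Pool.Agent.Run7.h166.LE

open NumberField

/-- the restriction of `ζ ↦ ζ ^ q` to a subfield of `ℚ(ζ)` is a Frobenius automorphism of the prime `q` -/
theorem frob (m : ℕ) (hm : 0 < m) (ζ : AlgebraicClosure ℚ) (hζ : IsPrimitiveRoot ζ m)
    (F : IntermediateField ℚ (AlgebraicClosure ℚ)) [NumberField F]
    (hF : F ≤ IntermediateField.adjoin ℚ {ζ}) (q : ℕ) (hq : q.Prime) (hqm : q.Coprime m)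
    (τ : AlgebraicClosure ℚ ≃ₐ[ℚ] AlgebraicClosure ℚ) (hτ : τ ζ = ζ ^ q)
    (σ : F ≃ₐ[ℚ] F) (hσ : ∀ x : F, τ (x : AlgebraicClosure ℚ) = σ x) :
    ∃ Q : Ideal (𝓞 F), Q.IsPrime ∧ Q.comap (algebraMap ℤ (𝓞 F)) = Ideal.span {(q : ℤ)} ∧
      ∀ a b : 𝓞 F, (b : F) = σ (a : F) → b - a ^ q ∈ Q := by
  have : NeZero m := ⟨hm.ne'⟩
  obtain ⟨K, hK⟩ : ∃ K : IntermediateField ℚ (AlgebraicClosure ℚ), K = IntermediateField.adjoin ℚ {ζ} :=
    ⟨_, rfl⟩
  have hint : Algebra.IsIntegral ℚ (AlgebraicClosure ℚ) := AlgebraicClosure.isAlgebraic ℚ |>.isIntegral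
  have hcyc : IsCyclotomicExtension {m} ℚ K := by
    rw [hK]
    exact hζ.intermediateField_adjoin_isCyclotomicExtension ℚ
  rw [← hK] at hF
  have : NumberField K := IsCyclotomicExtension.numberField {m} ℚ K
  have : IsGalois ℚ K := IsCyclotomicExtension.isGalois {m} ℚ K
  have hqZ : Prime (q : ℤ) := Nat.prime_iff_prime_int.1 hq
  -- a prime ideal above `q`
  have hsp : (Ideal.span {(q : ℤ)}).IsPrime := by
    rw [Ideal.span_singleton_prime hqZ.ne_zero]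
    exact hqZ
  have hspM : (Ideal.span {(q : ℤ)}).IsMaximal :=
    hsp.isMaximal (by rw [Ne, Ideal.span_singleton_eq_bot]; exact hqZ.ne_zero)
  obtain ⟨⟨P, hP1, hP2⟩⟩ := (Ideal.span {(q : ℤ)}).nonempty_primesOver (S := 𝓞 K)
  have hunder : P.under ℤ = Ideal.span {(q : ℤ)} := hP2.over.symm
  have hqP : ((q : ℕ) : 𝓞 K) ∈ P := by
    have h1 : (q : ℤ) ∈ P.under ℤ := by
      rw [hunder]
      exact Ideal.mem_span_singleton_self _
    have h2 := Ideal.mem_comap.1 h1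
    simpa using h2
  have h0 : P ≠ ⊥ := by
    rintro rfl
    rw [Ideal.mem_bot] at hqP
    exact hq.ne_zero (by exact_mod_cast hqP)
  have hfin : Finite (𝓞 K ⧸ P) := Ring.HasFiniteQuotients.finiteQuotient h0
  obtain ⟨φ, hφ⟩ := IsArithFrobAt.exists_of_isInvariant ℤ (K ≃ₐ[ℚ] K) P
  have hcard : Nat.card (ℤ ⧸ P.under ℤ) = q := by
    rw [hunder, Int.card_ideal_quot]
  -- the generator
  have hζK : ζ ∈ K := by
    rw [hK]
    exact IntermediateField.mem_adjoin_simple_self ℚ ζ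
  have hz1 : (⟨ζ, hζK⟩ : K) ^ m = 1 := by
    apply Subtype.ext
    simpa using hζ.pow_eq_one
  have hzi : IsIntegral ℤ (⟨ζ, hζK⟩ : K) := IsIntegral.of_pow hm (by rw [hz1]; exact isIntegral_one)
  obtain ⟨z, hz⟩ : ∃ z : 𝓞 K, (z : K) = ⟨ζ, hζK⟩ := ⟨⟨_, hzi⟩, rfl⟩
  have hzm : z ^ m = 1 := by
    apply RingOfIntegers.ext
    have h1 : ((z ^ m : 𝓞 K) : K) = (z : K) ^ m := by simp
    rw [h1, hz, hz1]
    simp
  have hmP : ((m : ℕ) : 𝓞 K) ∉ P := by
    intro h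
    apply hP1.ne_top
    rw [Ideal.eq_top_iff_one]
    have h1 : IsCoprime ((q : ℕ) : ℤ) ((m : ℕ) : ℤ) := Nat.isCoprime_iff_coprime.2 hqm
    obtain ⟨u, v, huv⟩ := h1
    have h2 : (algebraMap ℤ (𝓞 K)) u * ((q : ℕ) : 𝓞 K) + (algebraMap ℤ (𝓞 K)) v * ((m : ℕ) : 𝓞 K) = 1 := by
      have := congrArg (algebraMap ℤ (𝓞 K)) huv
      simpa using this
    rw [← h2]
    exact P.add_mem (P.mul_mem_left _ hqP) (P.mul_mem_left _ h)
  have hφz := AlgHom.IsArithFrobAt.apply_of_pow_eq_one hφ hzm hmP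
  rw [hcard] at hφz
  have hφζ : ((φ ⟨ζ, hζK⟩ : K) : AlgebraicClosure ℚ) = τ ζ := by
    have h1 := congrArg (fun x : 𝓞 K => ((x : K) : AlgebraicClosure ℚ)) hφz
    have h2 : (((MulSemiringAction.toAlgHom ℤ (𝓞 K) φ) z : 𝓞 K) : K) = φ (z : K) := rfl
    have h3 : ((z ^ q : 𝓞 K) : K) = (z : K) ^ q := by simp
    have h4 : ((φ (z : K) : K) : AlgebraicClosure ℚ) = (((z : K) ^ q : K) : AlgebraicClosure ℚ) := by
      rw [← h2, ← h3]
      exact h1
    rw [hz] at h4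
    rw [hτ, h4]
    simp
  -- the two automorphisms agree
  have hagree : ∀ x : K, ((φ x : K) : AlgebraicClosure ℚ) = τ (x : AlgebraicClosure ℚ) := by
    have h1 : K.val.comp (φ : K →ₐ[ℚ] K) = (τ : AlgebraicClosure ℚ →ₐ[ℚ] AlgebraicClosure ℚ).comp K.val := by
      subst hK
      refine IntermediateField.adjoin_algHom_ext ℚ ?_
      rintro x hx
      rw [Set.mem_singleton_iff] at hx
      subst hx
      exact hφζ
    exact fun x => DFunLike.congr_fun h1 x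
  -- the prime ideal of `F`
  obtain ⟨ι, hι⟩ : ∃ ι : F →ₐ[ℚ] K, ∀ x : F, ((ι x : K) : AlgebraicClosure ℚ) = x :=
    ⟨IntermediateField.inclusion hF, fun x => rfl⟩
  obtain ⟨j, hj⟩ : ∃ j : 𝓞 F →+* 𝓞 K, ∀ x : 𝓞 F, ((j x : 𝓞 K) : K) = ι (x : F) :=
    ⟨RingOfIntegers.mapRingHom ι, fun x => rfl⟩
  refine ⟨P.comap j, hP1.comap j, ?_, ?_⟩
  · rw [Ideal.comap_comap, ← hunder]
    have : j.comp (algebraMap ℤ (𝓞 F)) = algebraMap ℤ (𝓞 K) := RingHom.ext_int _ _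
    rw [this]
  · intro a b hab
    rw [Ideal.mem_comap, map_sub, map_pow]
    have h1 := hφ (j a)
    rw [hcard] at h1
    have h2 : j b = (MulSemiringAction.toAlgHom ℤ (𝓞 K) φ) (j a) := by
      apply RingOfIntegers.ext
      apply Subtype.ext
      have h3 : (((MulSemiringAction.toAlgHom ℤ (𝓞 K) φ) (j a) : 𝓞 K) : K) = φ ((j a : 𝓞 K) : K) := rfl
      rw [h3, hagree, hj, hj, hι, hι, hσ, hab]
    rw [h2]
    exact h1

end Pool.Agent.Run7.h166.LE
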