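import Pool.Agent.Run7.h166.SP.LimE
import Pool.Agent.Run7.h166.LE.Frob

/-!
Membership in the sets of Lenstra's conjecture.
-/

set_option autoImplicit false

namespace Pool.Agent.Run7.h166.LE

open Finset NumberField
open Pool.Agent.Run7.h166.SP (IsRoot square_iff main1E NoInd)
open Pool.Agent.R498.MX (Qs Qs_mem)

/-- `q` is a prime of Lenstra's set `𝒮(F, C, W, k)` -/
def Mem (F : IntermediateField ℚ (AlgebraicClosure ℚ)) [NumberField F]
    (C : Set (F ≃ₐ[ℚ] F)) (W : Subgroup ℚˣ) (k q : ℕ) : Prop :=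
  q.Prime ∧
    (∃ σ ∈ C, ∃ Q : Ideal (𝓞 F), Q.IsPrime ∧
        Q.comap (algebraMap ℤ (𝓞 F)) = Ideal.span {(q : ℤ)} ∧
        ∀ a b : 𝓞 F, (b : F) = σ (a : F) → b - a ^ q ∈ Q) ∧
    (∀ w ∈ W, padicValRat q (w : ℚ) = 0) ∧
    (Subgroup.closure {u : (ZMod q)ˣ | ∃ w ∈ W,
        (((w : ℚ).num : ℤ) : ZMod q) = (u : ZMod q) * (((w : ℚ).den : ℕ) : ZMod q)}).index ∣ k

/-- a group which contains a primitive root is everything modulo `q` -/
theorem index_one (W : Subgroup ℚˣ) (w : ℚˣ) (hw : w ∈ W) (q : ℕ) (hq : q.Prime) (h : IsRoot (w : ℚ) q) :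
    (Subgroup.closure {u : (ZMod q)ˣ | ∃ w ∈ W,
        (((w : ℚ).num : ℤ) : ZMod q) = (u : ZMod q) * (((w : ℚ).den : ℕ) : ZMod q)}).index = 1 := by
  have : Fact q.Prime := ⟨hq⟩
  obtain ⟨hn, hd, he⟩ := h
  have hn0 : (((w : ℚ).num : ℤ) : ZMod q) ≠ 0 := fun h => hn ((ZMod.intCast_zmod_eq_zero_iff_dvd _ _).1 h)
  have hd0 : (((w : ℚ).den : ℕ) : ZMod q) ≠ 0 := fun h => hd ((ZMod.natCast_eq_zero_iff _ _).1 h)
  obtain ⟨u, hu⟩ : ∃ u : (ZMod q)ˣ, (u : ZMod q) = (((w : ℚ).num : ℤ) : ZMod q) / (((w : ℚ).den : ℕ) : ZMod q) :=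
    ⟨Units.mk0 _ (div_ne_zero hn0 hd0), rfl⟩
  have hpow : ∀ e : ℕ, u ^ e = 1 → (((w : ℚ).num : ℤ) : ZMod q) ^ e = (((w : ℚ).den : ℕ) : ZMod q) ^ e := by
    intro e h1
    have h2 : (u : ZMod q) ^ e = 1 := by
      rw [← Units.val_pow_eq_pow_val, h1, Units.val_one]
    rw [hu, div_pow, div_eq_one_iff_eq (pow_ne_zero _ hd0)] at h2
    exact h2
  have hcard : Nat.card (ZMod q)ˣ = q - 1 := by
    rw [Nat.card_eq_fintype_card, ZMod.card_units_eq_totient, Nat.totient_prime hq]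
  have hord : orderOf u = Nat.card (ZMod q)ˣ := by
    have h1 : orderOf u ∣ Nat.card (ZMod q)ˣ := orderOf_dvd_natCard u
    have h2 : 0 < orderOf u := orderOf_pos u
    have h3 : orderOf u ≤ q - 1 := by
      rw [← hcard]
      exact Nat.le_of_dvd Nat.card_pos h1
    rw [hcard]
    by_contra hne
    exact he (orderOf u) h2 (by omega) (hpow _ (pow_orderOf_eq_one u))
  have htop : Subgroup.zpowers u = ⊤ := by
    apply Subgroup.eq_top_of_card_eq
    rw [Nat.card_zpowers, hord]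
  rw [Subgroup.index_eq_one, eq_top_iff, ← htop, Subgroup.zpowers_le]
  apply Subgroup.subset_closure
  refine ⟨w, hw, ?_⟩
  rw [hu]
  field_simp

/-- the elements of a finitely generated group are units outside the primes of the generators -/
theorem units (T : Finset ℚˣ) (q : ℕ) (hq : q.Prime)
    (h : q.Coprime (∏ t ∈ T, (t : ℚ).num.natAbs * (t : ℚ).den)) :
    ∀ w ∈ Subgroup.closure (T : Set ℚˣ), padicValRat q (w : ℚ) = 0 := by
  have : Fact q.Prime := ⟨hq⟩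
  intro w hw
  induction hw using Subgroup.closure_induction with
  | mem t ht =>
    have h1 : (t : ℚ).num.natAbs * (t : ℚ).den ∣ ∏ t ∈ T, (t : ℚ).num.natAbs * (t : ℚ).den :=
      Finset.dvd_prod_of_mem _ ht
    have h2 := h.coprime_dvd_right h1
    have h3 : ¬ q ∣ (t : ℚ).num.natAbs := fun h4 =>
      (hq.coprime_iff_not_dvd.1 (h2.coprime_dvd_right (dvd_mul_right _ _))) h4
    have h4 : ¬ q ∣ (t : ℚ).den := fun h4 =>
      (hq.coprime_iff_not_dvd.1 (h2.coprime_dvd_right (dvd_mul_left _ _))) h4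
    unfold padicValRat
    rw [padicValNat.eq_zero_of_not_dvd h4, padicValInt, padicValNat.eq_zero_of_not_dvd h3]
    simp
  | one => simp
  | mul x y _ _ hx hy =>
    rw [Units.val_mul, padicValRat.mul x.ne_zero y.ne_zero, hx, hy, add_zero]
  | inv x _ hx =>
    rw [Units.val_inv_eq_inv_val, padicValRat.inv, hx, neg_zero]

theorem mem_of (a : ℕ → ℕ) (ha : ∀ m, 0 < m → (a m).Coprime m)
    (hac : ∀ m n : ℕ, 0 < n → m ∣ n → a n ≡ a m [MOD m])
    (m : ℕ) (hm : 0 < m) (ζ : AlgebraicClosure ℚ) (hζ : IsPrimitiveRoot ζ m)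
    (F : IntermediateField ℚ (AlgebraicClosure ℚ)) [NumberField F]
    (hF : F ≤ IntermediateField.adjoin ℚ {ζ})
    (τ : AlgebraicClosure ℚ ≃ₐ[ℚ] AlgebraicClosure ℚ) (hτ : τ ζ = ζ ^ a m)
    (C : Set (F ≃ₐ[ℚ] F)) (σ : F ≃ₐ[ℚ] F) (hσC : σ ∈ C)
    (hσ : ∀ x : F, τ (x : AlgebraicClosure ℚ) = σ x) (T : Finset ℚˣ) (k : ℕ)
    (w : ℚˣ) (hw : w ∈ Subgroup.closure (T : Set ℚˣ)) (q : ℕ) (hq : q.Prime)
    (hqa : q ≡ a (m * ∏ t ∈ T, (t : ℚ).num.natAbs * (t : ℚ).den)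
      [MOD m * ∏ t ∈ T, (t : ℚ).num.natAbs * (t : ℚ).den])
    (hr : IsRoot (w : ℚ) q) : Mem F C (Subgroup.closure (T : Set ℚˣ)) k q := by
  obtain ⟨M, hM⟩ : ∃ M, M = ∏ t ∈ T, (t : ℚ).num.natAbs * (t : ℚ).den := ⟨_, rfl⟩
  have hM0 : 0 < M := by
    rw [hM]
    apply Finset.prod_pos
    intro t _
    apply Nat.mul_pos
    · rw [Int.natAbs_pos]
      exact Rat.num_ne_zero.2 t.ne_zero
    · exact (t : ℚ).den_pos
  rw [← hM] at hqa
  have hmM : 0 < m * M := Nat.mul_pos hm hM0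
  have hcop : q.Coprime (m * M) := by
    have h1 := ha (m * M) hmM
    unfold Nat.Coprime
    rw [Nat.ModEq.gcd_eq hqa]
    exact h1
  have hqm : q.Coprime m := hcop.coprime_dvd_right (dvd_mul_right _ _)
  have hqM : q.Coprime M := hcop.coprime_dvd_right (dvd_mul_left _ _)
  have hqam : q ≡ a m [MOD m] :=
    (hqa.of_dvd (dvd_mul_right _ _)).trans (hac m (m * M) hmM (dvd_mul_right _ _))
  refine ⟨hq, ⟨σ, hσC, ?_⟩, ?_, ?_⟩
  · apply frob m hm ζ hζ F hF q hq hqm τ _ σ hσ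
    rw [hτ]
    exact (pow_eq_pow_of_modEq hqam hζ.pow_eq_one).symm
  · rw [hM] at hqM
    exact units T q hq hqM
  · rw [index_one _ w hw q hq hr]
    exact one_dvd _

end Pool.Agent.Run7.h166.LE
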