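import Pool.Agent.Run7.h166.LE.Main

/-!
Systems of residue classes with a given class modulo `m` and a given quadratic symbol.
-/

set_option autoImplicit false

namespace Pool.Agent.Run7.h166.LE

open Finset
open Pool.Agent.Run7.h166.SP (res_odd)

/-- limits of integers in the units of the profinite integers -/
theorem ultra (x : ℕ → ℕ) (hx1 : ∀ n l, l.Prime → l ≤ n → ¬ l ∣ x n)
    (hx2 : ∀ n l, l.Prime → l ≠ 2 → l ≤ n → ¬ x n ≡ 1 [MOD l]) :
    ∃ a : ℕ → ℕ, (∀ m, 0 < m → (a m).Coprime m) ∧ (∀ m n, 0 < n → m ∣ n → a n ≡ a m [MOD m]) ∧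
      (∀ l, l.Prime → l ≠ 2 → ¬ a l ≡ 1 [MOD l]) ∧ ∀ k, 0 < k → ∃ n ≥ k, x n ≡ a k [MOD k] := by
  obtain ⟨U, hU⟩ : ∃ U : Ultrafilter ℕ, (U : Filter ℕ) ≤ Filter.atTop :=
    ⟨Filter.hyperfilter ℕ, Nat.hyperfilter_le_atTop⟩
  have hex : ∀ k, 0 < k → ∃ r, ∀ᶠ n in (U : Filter ℕ), x n % k = r := by
    intro k hk
    have h1 : ∀ᶠ n in (U : Filter ℕ), ∃ r ∈ Set.Iio k, x n % k = r :=
      Filter.Eventually.of_forall fun n => ⟨_, Nat.mod_lt _ hk, rfl⟩
    obtain ⟨r, -, hr⟩ := (Ultrafilter.eventually_exists_mem_iff (Set.finite_Iio k)).1 h1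
    exact ⟨r, hr⟩
  choose! a ha using hex
  have hlarge : ∀ k, ∀ᶠ n in (U : Filter ℕ), k ≤ n := fun k => hU (Filter.eventually_ge_atTop k)
  have hget : ∀ k, 0 < k → ∃ n ≥ k, x n ≡ a k [MOD k] := by
    intro k hk
    obtain ⟨n, h1, h2⟩ := ((ha k hk).and (hlarge k)).exists
    refine ⟨n, h2, ?_⟩
    rw [← h1]
    exact (Nat.mod_modEq _ _).symm
  refine ⟨a, ?_, ?_, ?_, hget⟩
  · intro m hm
    obtain ⟨n, h1, h2⟩ := hget m hm
    by_contra hcon
    rw [Nat.Prime.not_coprime_iff_dvd] at hcon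
    obtain ⟨l, hl, h3, h4⟩ := hcon
    exact hx1 n l hl ((Nat.le_of_dvd hm h4).trans h1) (((h2.of_dvd h4).dvd_iff dvd_rfl).2 h3)
  · intro m n hn hmn
    have hm : 0 < m := Nat.pos_of_dvd_of_pos hmn hn
    obtain ⟨t, h1, h2⟩ := ((ha n hn).and (ha m hm)).exists
    have h3 : x t ≡ a n [MOD n] := by rw [← h1]; exact (Nat.mod_modEq _ _).symm
    have h4 : x t ≡ a m [MOD m] := by rw [← h2]; exact (Nat.mod_modEq _ _).symm
    exact (h3.of_dvd hmn).symm.trans h4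
  · intro l hl hl2 h
    obtain ⟨n, h1, h2⟩ := hget l hl.pos
    exact hx2 n l hl hl2 h1 (h2.trans h)

/-- integers with given class modulo `m` and given Jacobi symbol, outside the classes of `0` and `1` modulo small primes -/
theorem exists_x (m c : ℕ) (hm : 0 < m) (hc : c.Coprime m)
    (hc1 : ∀ l, l.Prime → l ≠ 2 → l ∣ m → ¬ c ≡ 1 [MOD l]) (l0 : ℕ) (hl0 : l0.Prime) (h5 : 5 ≤ l0)
    (hl0m : ¬ l0 ∣ m) (t : ℕ) (ht : 0 < t) (hl0t : ¬ l0 ∣ t) (D' : ℤ) (hD' : D'.natAbs = t) (e : ℕ)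
    (he : Odd e) (n : ℕ) :
    ∃ x : ℕ, x ≡ c [MOD m] ∧ (∀ l, l.Prime → l ≤ n → ¬ l ∣ x) ∧
      (∀ l, l.Prime → l ≠ 2 → l ≤ n → ¬ x ≡ 1 [MOD l]) ∧ Odd x ∧ jacobiSym ((l0 : ℤ) ^ e * D') x = -1 := by
  have : Fact l0.Prime := ⟨hl0⟩
  obtain ⟨G, hG⟩ : ∃ G, G = ∏ l ∈ (Icc 1 n).filter (fun l => l.Prime ∧ l ≠ l0), l := ⟨_, rfl⟩
  obtain ⟨N, hN⟩ : ∃ N, N = 8 * m * t * G := ⟨_, rfl⟩
  have hG0 : 0 < G := by
    rw [hG]
    exact Finset.prod_pos fun l hl => (mem_filter.1 hl).2.1.pos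
  have hN0 : 0 < N := by rw [hN]; positivity
  have hl0N : l0.Coprime N := by
    rw [hl0.coprime_iff_not_dvd, hN]
    intro h
    rcases (hl0.dvd_mul).1 h with h | h
    · rcases (hl0.dvd_mul).1 h with h | h
      · rcases (hl0.dvd_mul).1 h with h | h
        · have h1 : l0 ∣ 2 := hl0.dvd_of_dvd_pow (show l0 ∣ 2 ^ 3 from h)
          have h2 := Nat.le_of_dvd (by norm_num) h1
          omega
        · exact hl0m h
      · exact hl0t h
    · rw [hG, hl0.prime.dvd_finsetProd_iff] at h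
      obtain ⟨l, hl, h⟩ := h
      obtain ⟨h1, h2⟩ := (mem_filter.1 hl).2
      exact h2 ((Nat.prime_dvd_prime_iff_eq hl0 h1).1 h).symm
  have h2N : 2 ∣ N := by rw [hN]; exact ⟨4 * m * t * G, by ring⟩
  have h4N : 4 ∣ N := by rw [hN]; exact ⟨2 * m * t * G, by ring⟩
  have hmN : m ∣ N := by rw [hN]; exact ⟨8 * t * G, by ring⟩
  have htN : 4 * t ∣ N := by rw [hN]; exact ⟨2 * m * G, by ring⟩
  have hGN : G ∣ N := by rw [hN]; exact dvd_mul_left _ _
  -- the class modulo `N`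
  obtain ⟨Q, hQ⟩ : ∃ Q, Q = N.primeFactors.filter (fun l => ¬ l ∣ m) := ⟨_, rfl⟩
  have hQp : ∀ l ∈ Q, l.Prime := fun l hl => by
    rw [hQ] at hl
    exact Nat.prime_of_mem_primeFactors (mem_filter.1 hl).1
  obtain ⟨y0, hy0⟩ := Nat.chineseRemainderOfFinset (fun l => if l = 2 then 1 else 2) (fun l => l) Q
    (fun l hl => (hQp l hl).ne_zero) (fun l hl l' hl' hne =>
      (Nat.coprime_primes (hQp l hl) (hQp l' hl')).2 hne)
  have hcop : m.Coprime (∏ l ∈ Q, l) := by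
    apply Nat.Coprime.prod_right
    intro l hl
    apply Nat.Coprime.symm
    rw [(hQp l hl).coprime_iff_not_dvd]
    rw [hQ] at hl
    exact (mem_filter.1 hl).2
  obtain ⟨y, hy1, hy2⟩ := Nat.chineseRemainder hcop c y0
  have hyl : ∀ l, l.Prime → l ∣ N → ¬ l ∣ m → y ≡ (if l = 2 then 1 else 2) [MOD l] := by
    intro l hl h1 h2
    have h3 : l ∈ Q := by
      rw [hQ, mem_filter]
      exact ⟨Nat.mem_primeFactors.2 ⟨hl, h1, hN0.ne'⟩, h2⟩
    exact (hy2.of_dvd (Finset.dvd_prod_of_mem _ h3)).trans (hy0 l h3)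
  have hnd : ∀ x, x ≡ y [MOD N] → ∀ l, l.Prime → l ∣ N → ¬ l ∣ x := by
    intro x hx l hl hlN hlx
    have h0 : l ∣ y := ((hx.of_dvd hlN).dvd_iff dvd_rfl).1 hlx
    by_cases hlm : l ∣ m
    · have h1 : l ∣ c := ((hy1.of_dvd hlm).dvd_iff dvd_rfl).1 h0
      exact hl.one_lt.ne' (Nat.dvd_one.1 (by
        have := Nat.dvd_gcd h1 hlm
        rw [hc] at this
        exact this))
    · have h1 := ((hyl l hl hlN hlm).dvd_iff dvd_rfl).1 h0
      split_ifs at h1 with h2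
      · exact hl.one_lt.ne' (Nat.dvd_one.1 h1)
      · exact h2 ((Nat.prime_dvd_prime_iff_eq hl Nat.prime_two).1 h1)
  have hne : ∀ x, x ≡ y [MOD N] → ∀ l, l.Prime → l ≠ 2 → l ∣ N → ¬ x ≡ 1 [MOD l] := by
    intro x hx l hl hl2 hlN hlx
    have h0 : y ≡ 1 [MOD l] := (hx.of_dvd hlN).symm.trans hlx
    by_cases hlm : l ∣ m
    · exact hc1 l hl hl2 hlm ((hy1.of_dvd hlm).symm.trans h0)
    · have h1 := (hyl l hl hlN hlm).symm.trans h0
      rw [if_neg hl2] at h1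
      have h2 := (Nat.modEq_iff_dvd' (show 1 ≤ 2 by norm_num)).1 h1.symm
      exact hl.one_lt.ne' (Nat.dvd_one.1 h2)
  have hodd : ∀ x, x ≡ y [MOD N] → Odd x := by
    intro x hx
    rw [← Nat.not_even_iff_odd, even_iff_two_dvd]
    exact hnd x hx 2 Nat.prime_two h2N
  have hl0odd : Odd l0 := hl0.odd_of_ne_two (by omega)
  -- the symbols
  obtain ⟨δ, hδ⟩ : ∃ δ : ℤˣ, ∀ x, x ≡ y [MOD N] → jacobiSym (l0 : ℤ) x = (δ : ℤ) * jacobiSym (x : ℤ) l0 := by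
    have hy4 : ∀ x, x ≡ y [MOD N] → x % 4 = y % 4 := fun x hx => hx.of_dvd h4N
    have hyodd := hodd y rfl
    by_cases h1 : y % 4 = 1
    · refine ⟨1, fun x hx => ?_⟩
      rw [jacobiSym.quadratic_reciprocity_one_mod_four' hl0odd (by rw [hy4 x hx, h1])]
      simp
    · by_cases h2 : l0 % 4 = 1
      · refine ⟨1, fun x hx => ?_⟩
        rw [jacobiSym.quadratic_reciprocity_one_mod_four h2 (hodd x hx)]
        simp
      · refine ⟨-1, fun x hx => ?_⟩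
        have h3 : y % 4 = 3 := by
          rw [Nat.odd_iff] at hyodd
          omega
        have h4 : l0 % 4 = 3 := by
          rw [Nat.odd_iff] at hl0odd
          omega
        rw [jacobiSym.quadratic_reciprocity_three_mod_four h4 (by rw [hy4 x hx, h3])]
        simp
  obtain ⟨j, hj⟩ : ∃ j : ℤˣ, ∀ x, x ≡ y [MOD N] → jacobiSym D' x = (j : ℤ) := by
    have h1 : ∀ x, x ≡ y [MOD N] → jacobiSym D' x = jacobiSym D' y := by
      intro x hx
      rw [jacobiSym.mod_right D' (hodd x hx), jacobiSym.mod_right D' (hodd y rfl), hD', hx.of_dvd htN]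
    have h2 : D'.gcd (y : ℤ) = 1 := by
      rw [Int.gcd_eq_natAbs, hD', Int.natAbs_natCast]
      by_contra hcon
      obtain ⟨l, hl, h3, h4⟩ := Nat.Prime.not_coprime_iff_dvd.1 hcon
      exact hnd y rfl l hl (h3.trans ((dvd_mul_left t 4).trans htN)) h4
    rcases jacobiSym.eq_one_or_neg_one h2 with h3 | h3
    · exact ⟨1, fun x hx => by rw [h1 x hx, h3]; rfl⟩
    · exact ⟨-1, fun x hx => by rw [h1 x hx, h3]; rfl⟩
  obtain ⟨u, hu1, hu2, hu3⟩ := res_odd l0 (by omega) (-(δ * j)) (fun h => by omega)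
  obtain ⟨x, hx1, hx2⟩ := Nat.chineseRemainder hl0N.symm y u
  refine ⟨x, (hx1.of_dvd hmN).trans hy1, ?_, ?_, hodd x hx1, ?_⟩
  · intro l hl hln hlx
    by_cases h1 : l = l0
    · rw [h1] at hlx
      exact hu1 ((hx2.dvd_iff dvd_rfl).1 hlx)
    · have h2 : l ∣ G := by
        rw [hG]
        apply Finset.dvd_prod_of_mem
        rw [mem_filter, mem_Icc]
        exact ⟨⟨hl.pos, hln⟩, hl, h1⟩
      exact hnd x hx1 l hl (h2.trans hGN) hlx
  · intro l hl hl2 hln hlx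
    by_cases h1 : l = l0
    · rw [h1] at hlx
      exact hu2 (hx2.symm.trans hlx)
    · have h2 : l ∣ G := by
        rw [hG]
        apply Finset.dvd_prod_of_mem
        rw [mem_filter, mem_Icc]
        exact ⟨⟨hl.pos, hln⟩, hl, h1⟩
      exact hne x hx1 l hl hl2 (h2.trans hGN) hlx
  · have h1 : jacobiSym (x : ℤ) l0 = ((-(δ * j) : ℤˣ) : ℤ) := by
      rw [← jacobiSym.legendreSym.to_jacobiSym, ← hu3]
      have h2 : ((x : ℤ) : ZMod l0) = ((u : ℤ) : ZMod l0) := by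
        rw [Int.cast_natCast, Int.cast_natCast]
        exact (ZMod.natCast_eq_natCast_iff _ _ _).2 hx2
      unfold legendreSym
      rw [h2]
    rw [jacobiSym.mul_left, jacobiSym.pow_left, hδ x hx1, hj x hx1, h1]
    rcases Int.units_eq_one_or δ with rfl | rfl <;> rcases Int.units_eq_one_or j with rfl | rfl <;>
      simp [he.neg_one_pow]

/-- systems with a given class modulo `m` and a given non-residue -/
theorem exists_system (m c : ℕ) (hm : 0 < m) (hc : c.Coprime m)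
    (hc1 : ∀ l, l.Prime → l ≠ 2 → l ∣ m → ¬ c ≡ 1 [MOD l]) (w : ℚˣ) (l0 : ℕ) (hl0 : l0.Prime) (h5 : 5 ≤ l0)
    (hl0m : ¬ l0 ∣ m) (hw : Odd (padicValRat l0 (w : ℚ))) :
    ∃ a : ℕ → ℕ, (∀ m, 0 < m → (a m).Coprime m) ∧ (∀ m n, 0 < n → m ∣ n → a n ≡ a m [MOD m]) ∧
      (∀ l, l.Prime → l ≠ 2 → ¬ a l ≡ 1 [MOD l]) ∧ a m ≡ c [MOD m] ∧ Nonres a (w : ℚ) := by
  have : Fact l0.Prime := ⟨hl0⟩
  obtain ⟨D, hD⟩ : ∃ D : ℤ, D = (w : ℚ).num * (w : ℚ).den := ⟨_, rfl⟩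
  have hn0 : (w : ℚ).num ≠ 0 := Rat.num_ne_zero.2 w.ne_zero
  have hd0 : (w : ℚ).den ≠ 0 := (w : ℚ).den_nz
  have hD0 : D ≠ 0 := by
    rw [hD]
    exact mul_ne_zero hn0 (by exact_mod_cast hd0)
  have hDa : D.natAbs ≠ 0 := Int.natAbs_ne_zero.2 hD0
  obtain ⟨e, hee⟩ : ∃ e, e = D.natAbs.factorization l0 := ⟨_, rfl⟩
  have he : Odd e := by
    have h1 : e = padicValNat l0 (w : ℚ).num.natAbs + padicValNat l0 (w : ℚ).den := by
      rw [hee, Nat.factorization_def _ hl0, hD, Int.natAbs_mul, Int.natAbs_natCast,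
        padicValNat.mul (Int.natAbs_ne_zero.2 hn0) hd0]
    unfold padicValRat padicValInt at hw
    obtain ⟨k, hk⟩ := hw
    rw [h1, Nat.odd_iff]
    omega
  obtain ⟨t, ht⟩ : ∃ t, t = D.natAbs / l0 ^ D.natAbs.factorization l0 := ⟨_, rfl⟩
  have hlt : ¬ l0 ∣ t := by
    rw [ht]
    exact Nat.not_dvd_ordCompl hl0 hDa
  have hDt : l0 ^ e * t = D.natAbs := by
    rw [ht, hee]
    exact Nat.ordProj_mul_ordCompl_eq_self D.natAbs l0
  have ht0 : 0 < t := by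
    rcases Nat.eq_zero_or_pos t with h | h
    · rw [h, mul_zero] at hDt
      exact absurd hDt.symm hDa
    · exact h
  have hDD : (l0 : ℤ) ^ e * (D.sign * t) = D := by
    have h1 : ((l0 ^ e * t : ℕ) : ℤ) = ((D.natAbs : ℕ) : ℤ) := by rw [hDt]
    push_cast at h1
    calc (l0 : ℤ) ^ e * (D.sign * t) = D.sign * ((l0 : ℤ) ^ e * t) := by ring
      _ = D.sign * |D| := by rw [h1]
      _ = D := Int.sign_mul_abs D
  have hD' : (D.sign * (t : ℤ)).natAbs = t := by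
    rw [Int.natAbs_mul, Int.natAbs_natCast, Int.natAbs_sign_of_ne_zero hD0, one_mul]
  have hx := fun n => exists_x m c hm hc hc1 l0 hl0 h5 hl0m t ht0 hlt (D.sign * t) hD' e he n
  choose x hx1 hx2 hx3 hx4 hx5 using hx
  obtain ⟨a, ha, hac, hal, hax⟩ := ultra x hx2 hx3
  refine ⟨a, ha, hac, hal, ?_, ?_⟩
  · obtain ⟨n, -, h1⟩ := hax m hm
    exact h1.symm.trans (hx1 n)
  · apply nonres_of a ha w D hD
    have hM : 0 < 4 * D.natAbs := by
      have : 0 < D.natAbs := Nat.pos_of_ne_zero hDa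
      omega
    obtain ⟨n, -, h1⟩ := hax (4 * D.natAbs) hM
    have hodda : Odd (a (4 * D.natAbs)) := by
      have h2 := ha (4 * D.natAbs) hM
      have h3 : (a (4 * D.natAbs)).Coprime 2 := h2.coprime_dvd_right ⟨2 * D.natAbs, by ring⟩
      exact Nat.coprime_two_right.1 h3
    rw [jacobiSym.mod_right D hodda, ← (show x n % (4 * D.natAbs) = a (4 * D.natAbs) % (4 * D.natAbs) from h1),
      ← jacobiSym.mod_right D (hx4 n), ← hx5 n, hDD]

end Pool.Agent.Run7.h166.LE
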