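import Pool.Agent.Run7.h166.LE.Core

/-!
Finitely generated groups modulo the primes of a system of residue classes.
-/

set_option autoImplicit false

namespace Pool.Agent.Run7.h166.LE

open Finset NumberField
open scoped Pointwise
open Pool.Agent.Run7.h166.SP (IsRoot square_iff main1E NoInd)
open Pool.Agent.R498.MX (Qs Qs_mem)

/-- `w` is no square modulo all primes in one of the classes of the system -/
def Nonres (a : ℕ → ℕ) (w : ℚ) : Prop :=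
  ∃ M : ℕ, 0 < M ∧ ∀ p : ℕ, p.Prime → p ≡ a M [MOD M] → ¬ IsSquare ((w.num * w.den : ℤ) : ZMod p)

/-- the rational numbers which are squares modulo all primes in one of the classes of the system -/
def Plus (a : ℕ → ℕ) (hac : ∀ m n : ℕ, 0 < n → m ∣ n → a n ≡ a m [MOD m]) : Subgroup ℚˣ where
  carrier := {w | ∃ M : ℕ, 0 < M ∧ ∀ p : ℕ, ∀ hp : p.Prime, p ≡ a M [MOD M] → w ∈ Qs p hp ((p - 1) / 2)}
  one_mem' := ⟨1, one_pos, fun p hp _ => (Qs p hp _).one_mem⟩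
  mul_mem' := by
    rintro w w' ⟨M, hM, h⟩ ⟨M', hM', h'⟩
    refine ⟨M * M', Nat.mul_pos hM hM', fun p hp hpm => ?_⟩
    have h1 : p ≡ a M [MOD M] :=
      (hpm.of_dvd (dvd_mul_right _ _)).trans (hac M (M * M') (Nat.mul_pos hM hM') (dvd_mul_right _ _))
    have h2 : p ≡ a M' [MOD M'] :=
      (hpm.of_dvd (dvd_mul_left _ _)).trans (hac M' (M * M') (Nat.mul_pos hM hM') (dvd_mul_left _ _))
    exact (Qs p hp _).mul_mem (h p hp h1) (h' p hp h2)
  inv_mem' := by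
    rintro w ⟨M, hM, h⟩
    exact ⟨M, hM, fun p hp hpm => (Qs p hp _).inv_mem (h p hp hpm)⟩

/-- the Legendre symbols of `w` at the primes in a class of the system -/
theorem class_symbol (a : ℕ → ℕ) (ha : ∀ m, 0 < m → (a m).Coprime m) (w : ℚˣ) (D : ℤ)
    (hD : D = (w : ℚ).num * (w : ℚ).den) (p : ℕ) (hp : p.Prime)
    (hpM : p ≡ a (4 * D.natAbs) [MOD 4 * D.natAbs]) :
    2 < p ∧ w ∈ Qs p hp 0 ∧ @legendreSym p ⟨hp⟩ D = jacobiSym D (a (4 * D.natAbs)) := by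
  have hn0 : (w : ℚ).num ≠ 0 := Rat.num_ne_zero.2 w.ne_zero
  have hd0 : (w : ℚ).den ≠ 0 := (w : ℚ).den_nz
  have hD0 : D ≠ 0 := by
    rw [hD]
    exact mul_ne_zero hn0 (by exact_mod_cast hd0)
  obtain ⟨M, hM⟩ : ∃ M, M = 4 * D.natAbs := ⟨_, rfl⟩
  have hMp : 0 < M := by
    rw [hM]
    have : 0 < D.natAbs := Int.natAbs_pos.2 hD0
    omega
  rw [← hM] at hpM ⊢
  have : Fact p.Prime := ⟨hp⟩
  have hcop : p.Coprime M := by
    have h1 := ha M hMp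
    unfold Nat.Coprime
    rw [Nat.ModEq.gcd_eq hpM]
    exact h1
  have h4 : p.Coprime 4 := hcop.coprime_dvd_right ⟨D.natAbs, hM⟩
  have hpD : ¬ p ∣ D.natAbs := by
    intro h
    have h1 : p.Coprime D.natAbs := hcop.coprime_dvd_right ⟨4, by rw [hM, mul_comm]⟩
    exact hp.coprime_iff_not_dvd.1 h1 h
  have hp2 : p ≠ 2 := by
    rintro rfl
    revert h4
    decide
  have hp2' : 2 < p := by
    have := hp.two_le
    omega
  refine ⟨hp2', ?_, ?_⟩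
  · rw [Qs_mem]
    refine ⟨⟨fun h => hpD ?_, fun h => hpD ?_⟩, by simp⟩
    · rw [← Int.natCast_dvd, hD]
      exact h.mul_right _
    · rw [← Int.natCast_dvd, hD]
      exact (Int.natCast_dvd_natCast.2 h).mul_left _
  · have hodd : Odd p := hp.odd_of_ne_two hp2
    have hodda : Odd (a M) := by
      have h1 := ha M hMp
      have h2 : (a M).Coprime 2 := h1.coprime_dvd_right ⟨2 * D.natAbs, by rw [hM]; ring⟩
      exact Nat.coprime_two_right.1 h2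
    rw [jacobiSym.legendreSym.to_jacobiSym, jacobiSym.mod_right D hodd, jacobiSym.mod_right D hodda, ← hM, hpM]

theorem nonres_of (a : ℕ → ℕ) (ha : ∀ m, 0 < m → (a m).Coprime m) (w : ℚˣ) (D : ℤ)
    (hD : D = (w : ℚ).num * (w : ℚ).den) (hs : jacobiSym D (a (4 * D.natAbs)) = -1) : Nonres a (w : ℚ) := by
  have hD0 : D ≠ 0 := by
    rw [hD]
    exact mul_ne_zero (Rat.num_ne_zero.2 w.ne_zero) (by exact_mod_cast (w : ℚ).den_nz)
  have hMp : 0 < 4 * D.natAbs := by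
    have : 0 < D.natAbs := Int.natAbs_pos.2 hD0
    omega
  refine ⟨4 * D.natAbs, hMp, fun p hp hpM => ?_⟩
  have : Fact p.Prime := ⟨hp⟩
  have h1 := (class_symbol a ha w D hD p hp hpM).2.2
  rw [hs, legendreSym.eq_neg_one_iff] at h1
  rw [← hD]
  exact h1

theorem dichotomy (a : ℕ → ℕ) (ha : ∀ m, 0 < m → (a m).Coprime m)
    (hac : ∀ m n : ℕ, 0 < n → m ∣ n → a n ≡ a m [MOD m]) (w : ℚˣ) :
    Nonres a (w : ℚ) ∨ w ∈ Plus a hac := by
  obtain ⟨D, hD⟩ : ∃ D : ℤ, D = (w : ℚ).num * (w : ℚ).den := ⟨_, rfl⟩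
  have hD0 : D ≠ 0 := by
    rw [hD]
    exact mul_ne_zero (Rat.num_ne_zero.2 w.ne_zero) (by exact_mod_cast (w : ℚ).den_nz)
  have hMp : 0 < 4 * D.natAbs := by
    have : 0 < D.natAbs := Int.natAbs_pos.2 hD0
    omega
  by_cases hs : jacobiSym D (a (4 * D.natAbs)) = -1
  · exact Or.inl (nonres_of a ha w D hD hs)
  · right
    refine ⟨4 * D.natAbs, hMp, fun p hp hpM => ?_⟩
    have : Fact p.Prime := ⟨hp⟩
    obtain ⟨h1, h2, h3⟩ := class_symbol a ha w D hD p hp hpM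
    rw [← square_iff p hp h1 w h2, ← hD]
    by_contra hcon
    rw [← legendreSym.eq_neg_one_iff, h3] at hcon
    exact hs hcon

/-- the system of the classes of `-1` -/
theorem minus_one : (∀ m, 0 < m → (m - 1).Coprime m) ∧
    (∀ m n : ℕ, 0 < n → m ∣ n → n - 1 ≡ m - 1 [MOD m]) ∧
    (∀ l : ℕ, l.Prime → l ≠ 2 → ¬ l - 1 ≡ 1 [MOD l]) := by
  refine ⟨fun m hm => ?_, fun m n hn hmn => ?_, fun l hl hl2 h => ?_⟩
  · obtain ⟨k, rfl⟩ : ∃ k, m = k + 1 := ⟨m - 1, by omega⟩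
    rw [Nat.add_sub_cancel]
    exact (Nat.coprime_self_add_right).2 (Nat.coprime_one_right k)
  · obtain ⟨k, rfl⟩ := hmn
    have hm : 0 < m := Nat.pos_of_mul_pos_right hn |> fun h => by
      rcases Nat.eq_zero_or_pos m with h0 | h0
      · rw [h0, zero_mul] at hn
        omega
      · exact h0
    apply Nat.ModEq.symm
    rw [Nat.modEq_iff_dvd' (by
      have : m * 1 ≤ m * k := Nat.mul_le_mul_left m (Nat.pos_of_ne_zero (by rintro rfl; simp at hn))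
      omega)]
    refine ⟨k - 1, ?_⟩
    rw [Nat.mul_sub, mul_one]
    omega
  · have h3 : 3 ≤ l := by
      have := hl.two_le
      omega
    have h1 := (Nat.modEq_iff_dvd' (show 1 ≤ l - 1 by omega)).1 h.symm
    have h2 := Nat.le_of_dvd (by omega) h1
    omega

/-- negative numbers are non-residues for the system of `-1` -/
theorem neg_nonres (w : ℚˣ) (hw : (w : ℚ) < 0) : Nonres (fun m => m - 1) (w : ℚ) := by
  obtain ⟨D, hD⟩ : ∃ D : ℤ, D = (w : ℚ).num * (w : ℚ).den := ⟨_, rfl⟩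
  have hDneg : D < 0 := by
    rw [hD]
    exact mul_neg_of_neg_of_pos (Rat.num_neg.2 hw) (by exact_mod_cast (w : ℚ).den_pos)
  apply nonres_of _ minus_one.1 w D hD
  obtain ⟨n, hn⟩ : ∃ n, n = D.natAbs := ⟨_, rfl⟩
  have hn0 : 0 < n := by rw [hn]; exact Int.natAbs_pos.2 hDneg.ne
  have hDn : D = -1 * (n : ℤ) := by
    rw [hn]
    omega
  rw [← hn, hDn, jacobiSym.mul_left]
  have hodd : Odd (4 * n - 1) := ⟨2 * n - 1, by omega⟩
  have h1 : jacobiSym (-1) (4 * n - 1) = -1 := by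
    rw [jacobiSym.at_neg_one hodd]
    exact ZMod.χ₄_nat_three_mod_four (by omega)
  have h2 : jacobiSym (n : ℤ) (4 * n - 1) = 1 := by
    have h3 : jacobiSym (4 * (n : ℤ)) (4 * n - 1) = 1 := by
      rw [jacobiSym.mod_left]
      have h4 : (4 * (n : ℤ)) % ((4 * n - 1 : ℕ) : ℤ) = 1 := by
        have h5 : ((4 * n - 1 : ℕ) : ℤ) = 4 * (n : ℤ) - 1 := by omega
        have h6 : ∀ c : ℤ, 1 < c → (c + 1) % c = 1 := by
          intro c hc
          rw [Int.add_emod_left]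
          exact Int.emod_eq_of_lt (by norm_num) hc
        rw [h5]
        have h7 := h6 (4 * (n : ℤ) - 1) (by omega)
        rw [sub_add_cancel] at h7
        exact h7
      rw [h4, jacobiSym.one_left]
    have h4 : jacobiSym 4 (4 * n - 1) = 1 := by
      have h5 : (4 : ℤ) = 2 ^ 2 := by norm_num
      rw [h5]
      apply jacobiSym.sq_one'
      have h6 : Nat.Coprime 2 (4 * n - 1) := (Nat.coprime_two_left).2 hodd
      exact_mod_cast h6
    rw [jacobiSym.mul_left, h4, one_mul] at h3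
    exact h3
  rw [h1, h2]
  norm_num

/-- a group of rank at least four has suitable elements -/
theorem exists_elt (a : ℕ → ℕ) (ha : ∀ m, 0 < m → (a m).Coprime m)
    (hac : ∀ m n : ℕ, 0 < n → m ∣ n → a n ≡ a m [MOD m])
    (hpr : ∀ m : ℕ, 0 < m → ∃ p : ℕ, p.Prime ∧ m < p ∧ p ≡ a m [MOD m])
    (V : Fin 4 → Subgroup ℚˣ) (hV : ∀ i, NoInd 4 (V i : Set ℚˣ)) (W : Subgroup ℚˣ)
    (w₀ : ℚˣ) (hw₀ : w₀ ∈ W) (hw₀' : Nonres a (w₀ : ℚ))
    (b : Fin 4 → ℚˣ) (hb : ∀ j, b j ∈ W) (hbi : ∀ e : Fin 4 → ℤ, ∏ j, b j ^ e j = 1 → ∀ j, e j = 0) :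
    ∃ w ∈ W, Nonres a (w : ℚ) ∧ ∀ i, w ∉ V i := by
  classical
  by_contra hcon
  push Not at hcon
  obtain ⟨H, hH⟩ : ∃ H : Option (Fin 4) → Subgroup W, H = fun o => o.elim ((Plus a hac).subgroupOf W)
    (fun i => (V i).subgroupOf W) := ⟨_, rfl⟩
  have hcover : ⋃ o ∈ (Finset.univ : Finset (Option (Fin 4))),
      ((1 : W) • (H o : Set W) : Set W) = Set.univ := by
    rw [Set.eq_univ_iff_forall]
    rintro ⟨w, hw⟩
    rw [Set.mem_iUnion₂]
    rcases dichotomy a ha hac w with h | h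
    · obtain ⟨i, hi⟩ := hcon w hw h
      refine ⟨some i, Finset.mem_univ _, ?_⟩
      rw [one_smul, hH]
      exact Subgroup.mem_subgroupOf.2 hi
    · refine ⟨none, Finset.mem_univ _, ?_⟩
      rw [one_smul, hH]
      exact Subgroup.mem_subgroupOf.2 h
  have h1 := Subgroup.leftCoset_cover_filter_FiniteIndex hcover
  have h2 : (⟨w₀, hw₀⟩ : W) ∈ (Set.univ : Set W) := Set.mem_univ _
  rw [← h1, Set.mem_iUnion₂] at h2
  obtain ⟨o, ho, h3⟩ := h2
  rw [one_smul] at h3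
  have hfi := (Finset.mem_filter.1 ho).2
  cases o with
  | none =>
    have h4 : w₀ ∈ Plus a hac := by
      rw [hH] at h3
      exact Subgroup.mem_subgroupOf.1 h3
    obtain ⟨M, hM, h5⟩ := h4
    obtain ⟨M', hM', h6⟩ := hw₀'
    have hMM : 0 < 4 * (M * M') := by positivity
    obtain ⟨p, hp, hmp, hpm⟩ := hpr (4 * (M * M')) hMM
    have hd1 : M ∣ 4 * (M * M') := ⟨4 * M', by ring⟩
    have hd2 : M' ∣ 4 * (M * M') := ⟨4 * M, by ring⟩
    have h7 : p ≡ a M [MOD M] := (hpm.of_dvd hd1).trans (hac M _ hMM hd1)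
    have h8 : p ≡ a M' [MOD M'] := (hpm.of_dvd hd2).trans (hac M' _ hMM hd2)
    have hp2 : 2 < p := by nlinarith
    have h9 := h5 p hp h7
    have h10 : w₀ ∈ Qs p hp 0 := by
      rw [Qs_mem] at h9 ⊢
      exact ⟨h9.1, by simp⟩
    exact h6 p hp h8 ((square_iff p hp hp2 w₀ h10).2 h9)
  | some i =>
    have h4 : ((V i).subgroupOf W).FiniteIndex := by
      rw [hH] at hfi
      exact hfi
    have hn0 : ((V i).subgroupOf W).index ≠ 0 := h4.index_ne_zero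
    refine hV i (fun j => b j ^ ((V i).subgroupOf W).index) (fun j => ?_) ?_
    · have h5 := Subgroup.pow_index_mem ((V i).subgroupOf W) (⟨b j, hb j⟩ : W)
      exact Subgroup.mem_subgroupOf.1 h5
    · intro e he j
      have h6 := hbi (fun j => (((V i).subgroupOf W).index : ℤ) * e j) (by
        rw [← he]
        apply Finset.prod_congr rfl
        intro j _
        rw [zpow_mul, zpow_natCast]) j
      exact (mul_eq_zero.1 h6).resolve_left (by exact_mod_cast hn0)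

open Classical in
theorem main (a : ℕ → ℕ) (ha : ∀ m, 0 < m → (a m).Coprime m)
    (hac : ∀ m n : ℕ, 0 < n → m ∣ n → a n ≡ a m [MOD m])
    (hal : ∀ l : ℕ, l.Prime → l ≠ 2 → ¬ a l ≡ 1 [MOD l]) :
    ∃ V : Fin 4 → Subgroup ℚˣ, (∀ i, NoInd 4 (V i : Set ℚˣ)) ∧
    ∃ P : Set ℕ, P.Infinite ∧ (∀ p ∈ P, p.Prime) ∧
    ∀ (m : ℕ) (_ : 0 < m) (ζ : AlgebraicClosure ℚ) (_ : IsPrimitiveRoot ζ m)
      (F : IntermediateField ℚ (AlgebraicClosure ℚ)) [NumberField F]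
      (_ : F ≤ IntermediateField.adjoin ℚ {ζ})
      (τ : AlgebraicClosure ℚ ≃ₐ[ℚ] AlgebraicClosure ℚ) (_ : τ ζ = ζ ^ a m)
      (C : Set (F ≃ₐ[ℚ] F)) (σ : F ≃ₐ[ℚ] F) (_ : σ ∈ C)
      (_ : ∀ x : F, τ (x : AlgebraicClosure ℚ) = σ x) (W : Subgroup ℚˣ) (_ : W.FG) (k : ℕ),
      ((∃ w ∈ W, Nonres a (w : ℚ) ∧ ∀ i, w ∉ V i) ∨
        ((∃ w ∈ W, Nonres a (w : ℚ)) ∧ ∃ b : Fin 4 → ℚˣ, (∀ j, b j ∈ W) ∧
          ∀ e : Fin 4 → ℤ, ∏ j, b j ^ e j = 1 → ∀ j, e j = 0)) →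
      (∃ κ : ℝ, 0 < κ ∧ ∀ A : ℕ, ∃ N ≥ A,
        κ * (N / Real.log N ^ 2) ≤ #{q ∈ Icc 1 N | Mem F C W k q}) ∧
      {q ∈ P | ¬ Mem F C W k q}.Finite := by
  obtain ⟨V, hV, h⟩ := main1E a ha hac hal
  refine ⟨V, hV, ?_⟩
  -- primes in the classes
  have hex : ∀ F : Finset ℚˣ, (∀ w ∈ F, ∀ i, w ∉ V i) → ∀ m : ℕ, 0 < m → ∃ p : ℕ, p.Prime ∧ m < p ∧
      p ≡ a m [MOD m] ∧ ∀ w ∈ F, IsRoot (w : ℚ) p ↔ ¬ IsSquare ((((w : ℚ).num * (w : ℚ).den : ℤ)) : ZMod p) := by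
    intro F hF m hm
    obtain ⟨κ, hκ, h1⟩ := h F hF m hm
    obtain ⟨N, hN, h2⟩ := h1 3
    have hNr : (3 : ℝ) ≤ N := by exact_mod_cast hN
    have hL0 : 0 < Real.log N := Real.log_pos (by linarith)
    have h3 : (0 : ℝ) < κ * (N / Real.log N ^ 2) := by positivity
    have h4 := h3.trans_le h2
    rw [Nat.cast_pos, Finset.card_pos] at h4
    obtain ⟨p, hp⟩ := h4
    rw [mem_filter] at hp
    exact ⟨p, hp.2.1, hp.2.2.2.1, hp.2.2.1, hp.2.2.2.2⟩
  have hpr : ∀ m : ℕ, 0 < m → ∃ p : ℕ, p.Prime ∧ m < p ∧ p ≡ a m [MOD m] := by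
    intro m hm
    obtain ⟨p, h1, h2, h3, -⟩ := hex ∅ (by simp) m hm
    exact ⟨p, h1, h2, h3⟩
  have : Countable ℚˣ := Function.Injective.countable (f := fun w : ℚˣ => (w : ℚ)) Units.val_injective
  obtain ⟨g, hg⟩ := exists_surjective_nat ℚˣ
  have hch : ∀ n : ℕ, ∃ p : ℕ, p.Prime ∧ (n + 1).factorial < p ∧ p ≡ a (n + 1).factorial [MOD (n + 1).factorial] ∧
      ∀ w ∈ ((range n).image g).filter (fun w => ∀ i, w ∉ V i),
        IsRoot (w : ℚ) p ↔ ¬ IsSquare ((((w : ℚ).num * (w : ℚ).den : ℤ)) : ZMod p) := fun n =>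
    hex _ (fun w hw => (mem_filter.1 hw).2) _ (Nat.factorial_pos _)
  choose p hp1 hp2 hp3 hp4 using hch
  refine ⟨Set.range p, ?_, ?_, ?_⟩
  · apply Set.infinite_of_not_bddAbove
    rintro ⟨b, hb⟩
    have h1 := hb ⟨b, rfl⟩
    have h2 := hp2 b
    have h3 := Nat.self_le_factorial (b + 1)
    omega
  · rintro q ⟨n, rfl⟩
    exact hp1 n
  intro m hm ζ hζ F _ hF τ hτ C σ hσC hσ W hW k hcase
  obtain ⟨w, hwW, hwN, hwV⟩ : ∃ w ∈ W, Nonres a (w : ℚ) ∧ ∀ i, w ∉ V i := by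
    rcases hcase with h1 | ⟨⟨w₀, hw₀, hw₀'⟩, b, hb, hbi⟩
    · exact h1
    · exact exists_elt a ha hac hpr V hV W w₀ hw₀ hw₀' b hb hbi
  obtain ⟨T, hT⟩ := hW
  obtain ⟨M, hM, hMN⟩ := hwN
  obtain ⟨L, hL⟩ : ∃ L, L = m * ∏ t ∈ T, (t : ℚ).num.natAbs * (t : ℚ).den := ⟨_, rfl⟩
  have hL0 : 0 < L := by
    rw [hL]
    apply Nat.mul_pos hm
    apply Finset.prod_pos
    intro t _
    apply Nat.mul_pos
    · rw [Int.natAbs_pos]
      exact Rat.num_ne_zero.2 t.ne_zero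
    · exact (t : ℚ).den_pos
  have hML : 0 < M * L := Nat.mul_pos hM hL0
  have key : ∀ q : ℕ, q.Prime → q ≡ a (M * L) [MOD M * L] →
      (IsRoot (w : ℚ) q ↔ ¬ IsSquare ((((w : ℚ).num * (w : ℚ).den : ℤ)) : ZMod q)) → Mem F C W k q := by
    intro q hq hqa hr
    have h1 : q ≡ a M [MOD M] := (hqa.of_dvd (dvd_mul_right _ _)).trans (hac M _ hML (dvd_mul_right _ _))
    have h2 : q ≡ a L [MOD L] := (hqa.of_dvd (dvd_mul_left _ _)).trans (hac L _ hML (dvd_mul_left _ _))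
    have h3 : IsRoot (w : ℚ) q := hr.2 (hMN q hq h1)
    rw [hL] at h2
    rw [← hT] at hwW ⊢
    exact mem_of a ha hac m hm ζ hζ F hF τ hτ C σ hσC hσ T k w hwW q hq h2 h3
  constructor
  · obtain ⟨κ, hκ, h1⟩ := h {w} (by
      intro w' hw'
      rw [Finset.mem_singleton] at hw'
      rw [hw']
      exact hwV) (M * L) hML
    refine ⟨κ, hκ, fun A => ?_⟩
    obtain ⟨N, hN, h2⟩ := h1 A
    refine ⟨N, hN, h2.trans ?_⟩
    norm_cast
    apply card_le_card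
    intro q hq
    rw [mem_filter] at hq ⊢
    exact ⟨hq.1, key q hq.2.1 hq.2.2.1 (hq.2.2.2.2 w (Finset.mem_singleton_self w))⟩
  · obtain ⟨j, rfl⟩ := hg w
    apply Set.Finite.subset ((Set.finite_Iic (j + M * L)).image p)
    rintro q ⟨⟨n, rfl⟩, hq⟩
    refine ⟨n, ?_, rfl⟩
    rw [Set.mem_Iic]
    by_contra hn
    push Not at hn
    apply hq
    have hdv : M * L ∣ (n + 1).factorial := Nat.dvd_factorial hML (by omega)
    apply key (p n) (hp1 n)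
    · exact ((hp3 n).of_dvd hdv).trans (hac _ _ (Nat.factorial_pos _) hdv)
    · apply hp4 n
      rw [mem_filter, mem_image]
      exact ⟨⟨j, mem_range.2 (by omega), rfl⟩, hwV⟩

end Pool.Agent.Run7.h166.LE
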